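import Pool.Agent.RHO.Stmts3

/-!
# MP_ca8ef3_an, stage 2, row SUR: the evaluations at few points are onto
-/

set_option autoImplicit false

namespace Pool.Agent.RHO.H86c

open Finset

theorem sur (hDUA : DUAStmt) : SURStmt := by
  intro ι _ _ k Z hZ g
  by_contra hcon
  -- the functions which vanish on `Z`
  let V : Submodule (ZMod 2) (Fn ι) :=
    { carrier := {h | ∀ z ∈ Z, h z = 0}
      zero_mem' := fun z _ => rfl
      add_mem' := by
        intro a b ha hb z hz
        rw [Pi.add_apply, ha z hz, hb z hz, add_zero]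
      smul_mem' := by
        intro c a ha z hz
        rw [Pi.smul_apply, ha z hz, smul_zero] }
  have hg : g ∉ RM ι k ⊔ V := by
    intro hmem
    obtain ⟨f, hf, h, hh, hfh⟩ := Submodule.mem_sup.1 hmem
    apply hcon
    refine ⟨f, hf, fun z hz => ?_⟩
    rw [← hfh, Pi.add_apply, hh z hz, add_zero]
  obtain ⟨φ, hφg, hφ⟩ := Submodule.exists_le_ker_of_notMem hg
  let τ : Fn ι := fun z => φ (fun j => if z = j then 1 else 0)
  have hpr : ∀ f : Fn ι, pr τ f = φ f := by
    intro f
    rw [LinearMap.pi_apply_eq_sum_univ φ f]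
    unfold pr
    refine Finset.sum_congr rfl fun z _ => ?_
    rw [smul_eq_mul, mul_comm]
  have hVan : Van τ k := by
    intro f hf
    rw [hpr]
    exact hφ (Submodule.mem_sup_left hf)
  have hne : τ ≠ 0 := by
    intro h
    apply hφg
    rw [← hpr g, h]
    simp [pr]
  have hsub : (univ.filter fun z => τ z ≠ 0) ⊆ Z := by
    intro z hz
    by_contra hzZ
    apply (Finset.mem_filter.1 hz).2
    have : (fun j => if z = j then (1 : ZMod 2) else 0) ∈ V := by
      intro w hw
      have : z ≠ w := by
        rintro rfl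
        exact hzZ hw
      simp [this]
    exact hφ (Submodule.mem_sup_right this)
  have h1 := hDUA ι k τ hVan hne
  have h2 := Finset.card_le_card hsub
  omega

end Pool.Agent.RHO.H86c
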